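import Pool.Agent.Q114.HB.Basic

set_option autoImplicit false

/-!
MP_49b0db_co, Q1: a necessary condition for the circuits of a matroid to form a Hilbert basis, for
matroids in which the elements of circuits are linked by exchanges.
-/

namespace Pool.Agent.Results.MP_49b0db_co.LinkedMatroids

open Pool.Agent.Q114.HB

theorem result {α : Type} [Fintype α] [DecidableEq α] (M : Matroid α)
    (hloop : ∀ e : α, ¬ M.IsCircuit {e})
    (hcirc : ∃ C : Finset α, M.IsCircuit (C : Set α))
    (hlink : ∀ e f : α, (∃ C : Finset α, e ∈ C ∧ M.IsCircuit (C : Set α)) →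
      (∃ C : Finset α, f ∈ C ∧ M.IsCircuit (C : Set α)) → Relation.ReflTransGen (Exch M) e f)
    (hHB : HilbertBasis M) :
    ∃ g : ℕ, 2 ≤ g ∧ (∀ C : Finset α, M.IsCircuit (C : Set α) → g ∣ C.card) ∧
      ∀ (e f : α) (X : Finset α), e ≠ f → e ∉ X → f ∉ X →
        M.IsCircuit ((insert e X : Finset α) : Set α) →
        M.IsCircuit ((insert f X : Finset α) : Set α) →
        (circs M (insert e (insert f X))).card = g + 1 :=
  main M hloop hcirc hlink hHB

end Pool.Agent.Results.MP_49b0db_co.LinkedMatroids
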