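import Pool.Agent.Q114.HB.Contract

set_option autoImplicit false

/-!
MP_49b0db_co, Q1: the class of the matroids whose circuits form a Hilbert basis is closed under
deletions, but not under contractions, so it is not characterised by excluded minors.

`HilbertBasis M`: every integer vector which is both a nonnegative rational combination (`InCone`) and
an integer combination (`InLat`) of the incidence vectors of the circuits is a nonnegative integer
combination of them (`InIntCone`).
-/

namespace Pool.Agent.Results.MP_49b0db_co.NotContractionClosed

open Pool.Agent.Q114.HB

/-- The property is preserved by deletions; for every `n ≥ 6` there is a matroid on `n` elements with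
the property no single-element contraction of which has it. -/
theorem result :
    (∀ (α : Type) [Fintype α] [DecidableEq α] (M : Matroid α) (D : Set α), HilbertBasis M →
      HilbertBasis (M.delete D)) ∧
    ∀ n : ℕ, 6 ≤ n → ∃ M : Matroid (Fin n), M.E = Set.univ ∧ HilbertBasis M ∧
      ∀ e : Fin n, ¬ HilbertBasis (M.contract {e}) :=
  ⟨fun _ _ _ _ D h => hilbert_delete h D, exists_fin⟩

end Pool.Agent.Results.MP_49b0db_co.NotContractionClosed
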