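import Pool.Agent.Q114.HB.RankTwo
import Pool.Agent.Q114.HB.RankThree

set_option autoImplicit false

/-!
MP_49b0db_co, Q1 for large paving matroids.

* `HilbertBasis M`: every integer vector which is both a nonnegative rational combination (`InCone`)
  and an integer combination (`InLat`) of the incidence vectors of the circuits is a nonnegative integer
  combination of them (`InIntCone`).
* `TwoLines M L`: the circuits are the sets of three elements contained in `L` or disjoint from `L`, and
  the sets with two elements in `L` and two elements outside `L`.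
-/

namespace Pool.Agent.Results.MP_49b0db_co.PavingMatroids

open Pool.Agent.Q114.HB

/-- Let `M` be a paving matroid of rank `r` (all circuits have at least `r` elements) with `n` elements.
* If `r = 2` and there are four pairwise non-parallel elements, then the circuits of `M` form a Hilbert
  basis if and only if `M` is uniform.
* If `r = 3` and `n ≥ 10`, then the circuits form a Hilbert basis if and only if `M` is uniform or
  consists of two disjoint lines.
* If `r ≥ 4` and `n ≥ 2r³ - 7r² + 6r + 1`, then the circuits form a Hilbert basis if and only if they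
  are the sets of `r + 1` elements (`M = U_{r,n}`), or for some `e` the sets of `r` elements which do
  not contain `e` (`e` is a coloop), or for some `e ≠ f` the sets of `r` elements which contain neither
  `e` nor `f` and the sets of `r + 1` elements which contain both (`M` is a series extension of
  `U_{r-1,n-1}`). -/
theorem result {α : Type} [Fintype α] [DecidableEq α] (M : Matroid α) (r : ℕ)
    (hE : M.E = Set.univ) (hrank : M.eRank = r)
    (hpav : ∀ C : Finset α, M.IsCircuit (C : Set α) → r ≤ C.card) :
    (r = 2 → (∃ R : Finset α, R.card = 4 ∧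
        ∀ x ∈ R, ∀ y ∈ R, ¬ M.IsCircuit (({x, y} : Finset α) : Set α)) →
      (HilbertBasis M ↔ ∀ C : Finset α, M.IsCircuit (C : Set α) ↔ C.card = 3)) ∧
    (r = 3 → 10 ≤ Fintype.card α →
      (HilbertBasis M ↔
        (∀ C : Finset α, M.IsCircuit (C : Set α) ↔ C.card = 4) ∨
        ∃ L : Finset α, TwoLines M L)) ∧
    (4 ≤ r → 2 * r ^ 3 + 6 * r + 1 ≤ Fintype.card α + 7 * r ^ 2 →
      (HilbertBasis M ↔
        (∀ C : Finset α, M.IsCircuit (C : Set α) ↔ C.card = r + 1) ∨
        (∃ e : α, ∀ C : Finset α, M.IsCircuit (C : Set α) ↔ e ∉ C ∧ C.card = r) ∨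
        ∃ e f : α, e ≠ f ∧ ∀ C : Finset α, M.IsCircuit (C : Set α) ↔
          (e ∉ C ∧ f ∉ C ∧ C.card = r) ∨ (e ∈ C ∧ f ∈ C ∧ C.card = r + 1))) := by
  refine ⟨fun h hR => ?_, fun h hn => ?_, fun h hn => ?_⟩
  · subst h
    exact rank_two hE (by exact_mod_cast hrank) hpav hR
  · subst h
    exact simple_rank_three hE (by exact_mod_cast hrank) hpav hn
  · exact paving_classify (by omega) hE hrank hpav (fun h3 => by omega) hn

end Pool.Agent.Results.MP_49b0db_co.PavingMatroids
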